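import Pool.Agent.Q269.SX.Tow
import Pool.Agent.Q269.SX.Asm

/-!
# Jacobians of hyperelliptic curves of every genus over `k(t)`: the exact orders of the 2-Selmer groups over all the
# constant extensions of odd degree, and their joint law in the family of all the quadratic twists

Let `k` be a finite field of characteristic different from 2 in which `-1` is a square, `q = |k|`, `n = 2 g + 1 ≥ 3`, and let
`a 1, …, a n` be polynomials over `k` such that all the differences `a i - a j` (`i ≠ j`) have the same degree `N ≥ 1` and the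
product of the `a i - a j`, `i < j`, is squarefree. For a monic squarefree polynomial `D` prime to the differences let `J_D` be the
Jacobian of the curve of genus `g`

`y ^ 2 = D(t) (x - a 1) ⋯ (x - a n)`

over `k(t)`, the quadratic twist by `D` of `J_1`. We consider ALL these `D` of degree `m`, `m + N` odd, and the finite extensions `k'`
of `k` of odd degree prime to the degrees of the prime divisors of the differences (for every odd degree, if the
differences are products of polynomials of degree one). For `K' = k'(t)` let `S(D, K')` be the product of the orders of the groups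
`J_D(K') / (J_D(K')[2] + 2 J_D(K'))` and `Ш'(J_D / K')[2]`, the group of the classes in `H ^ 1 (K', J_D)` of order dividing 2 which are trivial
over the completions of `K'` at all the places different from infinity: the order of the 2-Selmer group (without the condition at
infinity) modulo the image of the torsion points.

Theorem. There are natural numbers `s(D)` and `j(D, r, u)` (`r > 1` odd, `u` prime to `r`), which depend only on the class of
`u` modulo `r` up to the factors `± 2 ^ i`, with the following properties.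

(1) For ALL these `D` and ALL these `k'`, `S(D, K') = 2 ^ (s + ∑_(r ∣ [k' : k], r > 1) ∑_(u mod r, (u, r) = 1) j(D, r, u))` exactly; the exponent is
zero if and only if `J_D(K') = J_D(K')[2] + 2 J_D(K')` and the 2-primary part of `Ш'(J_D / K')` is zero.

(2) As `m` tends to infinity, `q` FIXED, the numbers `s(D)` and `j(D, r, u)`, for the different `r` and classes of `u`, are
independent, and their laws are

`law s = (β / 2) 2^s / ∏_(i ≤ s) (2^i - 1)`, `β = ∏_(i odd) (1 - 2^(-i)) = 0.4194…` (0.2097, 0.4194, 0.2796, 0.0799, …);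

`newLaw r j`, the law of the dimension of the kernel of a random Hermitian matrix over the field with `2^f` elements, `f` the order of 2
modulo `r`, if `-1` is a power of 2 modulo `r`, and of a random square matrix over the field with `2^f` elements otherwise;

for every finite set `R` of inequivalent pairs `(r, u)` and EVERY set `T` of vectors the proportion of the `D` with
`(s(D), (j(D, r, u))_R)` in `T` converges to the measure of `T` for the product of the laws. The laws do not depend on the genus.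

(3) For infinitely many extensions at the same time: let `T` be a set of odd numbers which contains the divisors of its
elements, prime to the degrees of the prime divisors of the differences, such that `r^8 ≤ 2^f` for the large `r` in `T`, for
instance all the powers of 3, or all the odd numbers without prime divisors larger than some `B`; and there are such
sets which contain all odd numbers up to a set of upper density at most `ε`. The proportion of the `D` for which
`J_D(K') = J_D(K')[2] + 2 J_D(K')` and `Ш'(J_D / K')[2^∞] = 0` for ALL the `k'` with degree in `T` converges to the positive number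
`law 0 * ∏_(r ∈ T, r > 1) (newLaw r 0)^(number of classes of the u modulo r)`, for the powers of 3 a number between
0.1055 and 0.10565. For these `D` the rank of `J_D(K')` is zero and by Tate, Milne, Kato and Trihan the whole conjecture of Birch and
Swinnerton-Dyer holds for `J_D` over all these `K'`.

So far only upper bounds for `S(D, k(t))` were proved for the genus `g > 1` (`SelmerLawSeveralFamilies`, `AverageOrder`), and a positive
proportion of the `D` with trivial `S(D, K')` for all `k'` in a tower (`ConstantTowers`, without the value); for `g = 1` and one class of the `D`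
the analogue is `ConstantExtensionLaw`. The new point is the exactness: every solution of the equations in terms of
quadratic residue symbols, which describe the local conditions, comes from a class which is everywhere locally trivial. The local points
are written down with their Mumford representation `(U, R)`: `U` is a polynomial with values in prescribed square classes at the
branch points, which exists by the theorem on primes with prescribed quadratic symbols and the reciprocity law over
the residue field, and `R` a square root of the equation modulo `U`, by Hensel's lemma; half of the class of the divisor `(U, y - R)` over the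
separable closure gives the triviality of the cocycle. By this the Selmer group is the kernel of a symmetric matrix,
and the decomposition of the kernel over `k'(t)` under the Frobenius automorphism of `k'` over `k` gives the formula (1).
-/

set_option autoImplicit false
set_option linter.all false

namespace Pool.Agent.Results.MP_1d384c_nt.ExactLawJacobians

open Polynomial Filter IsDedekindDomain Pool.Agent.Y713.Jac
open scoped Classical

/-- The product of the differences `a i - a j`, `i < j`. -/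
noncomputable def differences {k : Type} [Field k] {n : ℕ} (a : Fin n → k[X]) : k[X] :=
  ∏ x ∈ (Finset.univ : Finset (Fin n × Fin n)).filter (fun x => x.1 < x.2), (a x.1 - a x.2)

/-- The curve: `k` is a finite field of characteristic different from two in which `-1` is a square, `n ≥ 3` is odd, the
differences `a i - a j` have the same degree `N ≥ 1`, and their product over `i < j` is squarefree. -/
structure Family {k : Type} [Field k] {n : ℕ} (a : Fin n → k[X]) (N : ℕ) : Prop where
  two : (2 : k) ≠ 0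
  square : IsSquare (-1 : k)
  odd : Odd n
  three : 3 ≤ n
  pos : 1 ≤ N
  degree : ∀ i j, i ≠ j → (a i - a j).natDegree = N
  squarefree : Squarefree (differences a)

/-- The monic squarefree polynomials `D` of degree `m` prime to the differences `a i - a j`. -/
def Twists {k : Type} [Field k] {n : ℕ} (a : Fin n → k[X]) (m : ℕ) : Set k[X] :=
  {D | D.Monic ∧ D.natDegree = m ∧ Squarefree D ∧ ∀ i j, i ≠ j → IsCoprime D (a i - a j)}

/-- The polynomial `D(t) ∏ (x - a i)` in `x` over the field `K'` of rational functions over an extension `k'` of `k`. -/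
noncomputable def twist {k : Type} [Field k] (k' K' : Type) [Field k'] [Algebra k k'] [Field K'] [Algebra k'[X] K']
    {n : ℕ} (a : Fin n → k[X]) (D : k[X]) : K'[X] :=
  C (algebraMap k'[X] K' (D.map (algebraMap k k'))) * ∏ i, (X - C (algebraMap k'[X] K' ((a i).map (algebraMap k k'))))

/-- The numbers prime to the degrees of the prime divisors of `f`. -/
def PrimeToDegrees {k : Type} [Field k] (f : k[X]) (e : ℕ) : Prop :=
  ∀ Q : k[X], Irreducible Q → Q ∣ f → Nat.Coprime e Q.natDegree

/-- The subgroup `J(K)[2] + 2 J(K)` of `J(K)`, `J` the Jacobian of `y ^ 2 = F(x)` over `K`: the group generated by the kernel and the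
image of the squaring (multiplicative notation). -/
noncomputable def torsionAndDoubles {K : Type} [Field K] (F : K[X]) : Subgroup (J 2 F K) :=
  (powMonoidHom 2).ker ⊔ (powMonoidHom 2).range

/-- The cocycles with values in `J` which are trivial over the completions of `K = Frac R` at the primes of `R` and whose class is
killed by two. -/
def LocallyTrivialTwo {K : Type} [Field K] (F : K[X]) (R : Type) [CommRing R] [IsDedekindDomain R] [Algebra R K]
    [IsFractionRing R K] : Type :=
  {c : Cochain 2 F // IsCocycle 2 F c ∧ IsLocallyTrivial 2 F R c ∧ IsCoboundary 2 F (fun σ => c σ ^ 2)}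

/-- The number of the classes in `H ^ 1 (K, J)` killed by two which are trivial over the completions of `K` at the primes of `R`. -/
noncomputable def shaOrder {K : Type} [Field K] (F : K[X]) (R : Type) [CommRing R] [IsDedekindDomain R] [Algebra R K]
    [IsFractionRing R K] : ℕ :=
  Nat.card (Quot fun c c' : LocallyTrivialTwo F R => IsCoboundary 2 F (fun σ => c.1 σ / c'.1 σ))

/-- Both groups are finite and the product of their orders is `M`. -/
structure HasOrder {K : Type} [Field K] (F : K[X]) (R : Type) [CommRing R] [IsDedekindDomain R] [Algebra R K]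
    [IsFractionRing R K] (M : ℕ) : Prop where
  order : (torsionAndDoubles F).index * shaOrder F R = M
  points : (torsionAndDoubles F).index ≠ 0
  sha : shaOrder F R ≠ 0

/-- `J(K) = J(K)[2] + 2 J(K)`, and there is no class of order a power of two in `H ^ 1 (K, J)` which is trivial over the completions
of `K` at the primes of `R`. -/
def Good {K : Type} [Field K] (F : K[X]) (R : Type) [CommRing R] [IsDedekindDomain R] [Algebra R K]
    [IsFractionRing R K] : Prop :=
  (∀ x : J 2 F K, ∃ t y : J 2 F K, t ^ 2 = 1 ∧ x = t * y ^ 2) ∧ ShaPrimaryTrivial 2 F R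

/-- The proportion of the `D` with the property `P` in `Twists a m`. -/
noncomputable def proportion {k : Type} [Field k] {n : ℕ} (a : Fin n → k[X]) (P : k[X] → Prop) (m : ℕ) : ℝ :=
  (({D ∈ Twists a m | P D}.ncard : ℕ) : ℝ) / (((Twists a m).ncard : ℕ) : ℝ)

/-- `m` goes to infinity with `m + N` odd. -/
def degrees (N : ℕ) : Filter ℕ := atTop ⊓ 𝓟 {m | Odd (m + N)}

/-- `law s = (β / 2) 2^s / ((2 - 1) (2² - 1) ⋯ (2^s - 1))` with `β = ∏_{i odd} (1 - 2^{-i})`. -/
noncomputable def law (s : ℕ) : ℝ :=
  (∏' i : ℕ, (1 - (1 / 2 : ℝ) ^ (2 * i + 1))) / 2 * (2 ^ s / ∏ i ∈ Finset.range s, ((2 : ℝ) ^ (i + 1) - 1))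

/-- `-1` is a power of `2` modulo `r`. -/
def Unitary (r : ℕ) : Prop := ∃ m : ℕ, r ∣ 2 ^ m + 1

/-- The law of the dimension of the kernel of a random Hermitian matrix over the field with `Q²` elements. -/
noncomputable def lawHermitian (Q : ℝ) (j : ℕ) : ℝ :=
  (∏' i : ℕ, (1 + Q⁻¹ ^ (2 * i + 1)))⁻¹ * Q⁻¹ ^ (j ^ 2) / ∏ i ∈ Finset.range j, (1 - Q⁻¹ ^ (2 * (i + 1)))

/-- The law of the dimension of the kernel of a random square matrix over the field with `q` elements. -/
noncomputable def lawSquare (q : ℝ) (j : ℕ) : ℝ :=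
  (∏' i : ℕ, (1 - q⁻¹ ^ (i + 1))) * q⁻¹ ^ (j ^ 2) / (∏ i ∈ Finset.range j, (1 - q⁻¹ ^ (i + 1))) ^ 2

/-- The law for the order `r`. -/
noncomputable def newLaw (r : ℕ) : ℕ → ℝ :=
  if Unitary r then lawHermitian (2 ^ (orderOf (2 : ZMod r) / 2)) else lawSquare (2 ^ orderOf (2 : ZMod r))

/-- `v ≡ ± 2 ^ i u` modulo `r` for some `i`. -/
def SameClass (r u v : ℕ) : Prop := ∃ i : ℕ, v ≡ 2 ^ i * u [MOD r] ∨ r ∣ v + 2 ^ i * u

/-- A finite set of pairs `(r, u)`, `r > 1` odd, `u` prime to `r`, with inequivalent `u` for the same `r`. -/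
structure Inequivalent (R : Finset (ℕ × ℕ)) : Prop where
  pair : ∀ p ∈ R, Odd p.1 ∧ 1 < p.1 ∧ Nat.Coprime p.2 p.1
  ne : ∀ p ∈ R, ∀ p' ∈ R, p ≠ p' → p.1 = p'.1 → ¬ SameClass p.1 p.2 p'.2

/-- The number of the classes of the units modulo `r` up to `± 2 ^ i`. -/
noncomputable def classes (r : ℕ) : ℕ :=
  Nat.totient r / (if Unitary r then orderOf (2 : ZMod r) else 2 * orderOf (2 : ZMod r))

/-- The sum of the `j r u` over the divisors `r > 1` of `e` and the units `u` modulo `r`. -/
noncomputable def total (j : ℕ → ℕ → ℕ) (e : ℕ) : ℕ :=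
  ∑ r ∈ e.divisors.filter (1 < ·), ∑ u ∈ (Finset.range r).filter (fun u => Nat.Coprime u r), j r u

/-- The numbers `s` and `j r u` describe the orders for `J_D` over all the constant extensions of odd degree. -/
structure Describes {k : Type} [Field k] {n : ℕ} (a : Fin n → k[X]) (D : k[X]) (s : ℕ) (j : ℕ → ℕ → ℕ) : Prop where
  same : ∀ r u v : ℕ, Odd r → 1 < r → Nat.Coprime u r → SameClass r u v → j r v = j r u
  card : ∀ (k' K' : Type) [Field k'] [Finite k'] [Algebra k k'] [Field K'] [Algebra k'[X] K']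
    [IsFractionRing k'[X] K'], Odd (Module.finrank k k') → PrimeToDegrees (differences a) (Module.finrank k k') →
    HasOrder (twist k' K' a D) k'[X] (2 ^ (s + total j (Module.finrank k k'))) ∧
    (s + total j (Module.finrank k k') = 0 ↔ Good (twist k' K' a D) k'[X])

/-- A set of odd numbers which contains the divisors of its elements, such that the order of 2 modulo its large elements `r` is
at least `8 log r / log 2`. -/
structure Orders (T : Set ℕ) : Prop where
  one : 1 ∈ T
  odd : ∀ r ∈ T, Odd r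
  closed : ∀ r ∈ T, ∀ d : ℕ, d ∣ r → d ∈ T
  large : ∃ R : ℕ, ∀ r ∈ T, R < r → r ^ 8 ≤ 2 ^ orderOf (2 : ZMod r)

/-- `J_D` is good over the fields `k'(t)` for all the extensions `k'` of `k` whose degree is in `T`. -/
def GoodOverAll {k : Type} [Field k] {n : ℕ} (a : Fin n → k[X]) (T : Set ℕ) (D : k[X]) : Prop :=
  ∀ (k' K' : Type) [Field k'] [Finite k'] [Algebra k k'] [Field K'] [Algebra k'[X] K'] [IsFractionRing k'[X] K'],
    Module.finrank k k' ∈ T → Good (twist k' K' a D) k'[X]

/-- The product of the probabilities for the elements of `T`. -/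
noncomputable def productOver (T : Set ℕ) : ℝ := ∏' r : {r : ℕ // r ∈ T ∧ 1 < r}, newLaw r.1 0 ^ classes r.1

section proof

open Pool.Agent.Q269.SX Pool.Agent.Q269.GL Pool.Agent.Y164.HG
open Pool.Agent.Q269.SL (law2)

theorem law_eq : law2 = law := by
  funext e
  rw [Pool.Agent.Q269.SL.law2_eq]
  rfl

theorem newLaw_eq : lawR = newLaw := rfl

theorem orderOf_two_pos {r : ℕ} (hr : Odd r) : 0 < orderOf (2 : ZMod r) := by
  have hr0 : NeZero r := ⟨by rintro rfl; exact absurd hr (by decide)⟩
  rw [orderOf_pos_iff]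
  have h3 : IsUnit ((2 : ℕ) : ZMod r) := (ZMod.isUnit_iff_coprime 2 r).2 (by
    rw [Nat.coprime_comm]
    exact (Nat.coprime_two_right).2 hr)
  have h4 := isOfFinOrder_of_finite h3.unit
  rw [← Units.isOfFinOrder_val, IsUnit.unit_spec, Nat.cast_ofNat] at h4
  exact h4

theorem classes_eq {r : ℕ} (hr : Odd r) (hr1 : 1 < r) : classes r = (rp r).card := by
  have h := Pool.Agent.Q269.SX.AsmG.c_RPX.2.2.2 r hr hr1
  have h1 := orderOf_two_pos hr
  have h2 : 0 < (if Unitary r then orderOf (2 : ZMod r) else 2 * orderOf (2 : ZMod r)) := by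
    split_ifs <;> omega
  unfold classes
  rw [← h]
  exact Nat.mul_div_cancel _ h2

theorem product_eq {T : Set ℕ} (hT : ∀ r ∈ T, Odd r) : productOver T = PT T := by
  unfold productOver PT
  refine tprod_congr fun r => ?_
  rw [classes_eq (hT r.1 r.2.1) r.2.2]
  rfl

theorem tad_eq {K : Type} [Field K] (F : K[X]) : torsionAndDoubles F = tsub F := by
  ext x
  unfold torsionAndDoubles
  rw [Subgroup.mem_sup]
  constructor
  · rintro ⟨t, ht, z, ⟨y, rfl⟩, rfl⟩
    exact ⟨t, y, ht, rfl⟩
  · rintro ⟨t, y, ht, rfl⟩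
    exact ⟨t, ht, y ^ 2, ⟨y, rfl⟩, rfl⟩

theorem order_of {K : Type} [Field K] {F : K[X]} {R : Type} [CommRing R] [IsDedekindDomain R] [Algebra R K]
    [IsFractionRing R K] {M : ℕ} (g1 : (tsub F).index * nSh F R = M) (g2 : (tsub F).index ≠ 0) (g3 : nSh F R ≠ 0) :
    HasOrder F R M :=
  ⟨by rw [tad_eq]; exact g1, by rw [tad_eq]; exact g2, g3⟩

theorem geo {k : Type} [Field k] [Fintype k] {n : ℕ} {a : Fin n → k[X]} {N : ℕ} (h : Family a N) : Geo a N := by
  refine ⟨?_, h.square, h.odd, h.three, h.pos, h.degree, h.squarefree⟩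
  intro h0
  apply h.two
  have := ringChar.Nat.cast_ringChar (R := k)
  rw [h0] at this
  exact_mod_cast this

variable {k : Type} [Field k] [Fintype k] {n : ℕ} {a : Fin n → k[X]} {N : ℕ}

theorem ncard_tw (m : ℕ) (P Q : k[X] → Prop) (i : DecidablePred Q)
    (h : ∀ D, D ∈ Pool.Agent.Q269.GR.Dn (Del a) m → (Q D ↔ P D)) :
    (@Finset.filter _ Q i (Pool.Agent.Q269.GR.Dn (Del a) m)).card = {D ∈ Twists a m | P D}.ncard := by
  rw [← Set.ncard_coe_finset]
  congr 1
  ext D
  rw [Finset.mem_coe, Finset.mem_filter]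
  have h1 : D ∈ Twists a m ↔ D ∈ Pool.Agent.Q269.GR.Dn (Del a) m := Pool.Agent.Q269.GJ.mem_tw
  show _ ↔ D ∈ Twists a m ∧ P D
  rw [h1]
  exact and_congr_right fun hD => h D hD

theorem ncard_tw' (m : ℕ) : (Pool.Agent.Q269.GR.Dn (Del a) m).card = (Twists a m).ncard := by
  rw [← Set.ncard_coe_finset]
  congr 1
  ext D
  rw [Finset.mem_coe]
  exact Pool.Agent.Q269.GJ.mem_tw.symm

theorem prop_eq (P Q : k[X] → Prop) (i : DecidablePred Q) (m : ℕ)
    (h : ∀ D, D ∈ Pool.Agent.Q269.GR.Dn (Del a) m → (Q D ↔ P D)) :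
    ((@Finset.filter _ Q i (Pool.Agent.Q269.GR.Dn (Del a) m)).card : ℝ) /
      ((Pool.Agent.Q269.GR.Dn (Del a) m).card : ℝ) = proportion a P m := by
  rw [ncard_tw m P Q i h, ncard_tw' m]
  rfl

theorem exd_of {k' : Type} [Field k'] [Fintype k'] [Algebra k k'] (h1 : Odd (Module.finrank k k'))
    (h2 : PrimeToDegrees (differences a) (Module.finrank k k')) : Pool.Agent.Q269.GJ.Exd k k' (Del a) :=
  ⟨h1, fun Q _ hi hd => h2 Q hi hd⟩

theorem describes (h : Family a N) {m : ℕ} (hm : Odd (m + N)) {D : k[X]}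
    (hD : D ∈ Pool.Agent.Q269.GR.Dn (Del a) m) : Describes a D (ex (geo h) D) (fun r u => jn a r u D) := by
  constructor
  · intro r u v hr hr1 hu huv
    exact Pool.Agent.Q269.SX.AsmG.c_CJD k (geo h).hk h.square (Del a) (geo h).del_ne n h.odd a m D hD r u v hr hr1 hu huv
  · intro k' K' _ _ _ _ _ _ ho hp
    let _ : Fintype k' := Fintype.ofFinite k'
    obtain ⟨⟨g1, g2, g3⟩, g4⟩ := growthJ Pool.Agent.Q269.SX.Asm.d_SEL Pool.Agent.Q269.SX.Asm.d_BDX
      Pool.Agent.Q269.SX.Asm.d_KDR Pool.Agent.Q269.SX.Asm.d_SLN Pool.Agent.Q269.SX.Asm.d_CRD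
      Pool.Agent.Q269.GJ.Asm.b_HYM (geo h) (exd_of ho hp) hm hD K'
    refine ⟨order_of g1 g2 g3, g4.trans ?_⟩
    exact ⟨fun g => ⟨g.2, g.1⟩, fun g => ⟨g.2, g.1⟩⟩

theorem over_iff (T : Set ℕ) (D : k[X]) : GoodOverAll a T D ↔
    (∀ (k' K' : Type) [Field k'] [Finite k'] [Algebra k k'] [Field K'] [Algebra k'[X] K']
      [IsFractionRing k'[X] K'], Module.finrank k k' ∈ T →
      ShaPrimaryTrivial 2 (cur K' (Pool.Agent.Q269.GJ.am k' a) (D.map (algebraMap k k'))) k'[X] ∧
      ∀ x : J 2 (cur K' (Pool.Agent.Q269.GJ.am k' a) (D.map (algebraMap k k'))) K',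
        ∃ t y : J 2 (cur K' (Pool.Agent.Q269.GJ.am k' a) (D.map (algebraMap k k'))) K', t ^ 2 = 1 ∧ x = t * y ^ 2) := by
  constructor
  · intro h k' K' _ _ _ _ _ _ hT
    have g := h k' K' hT
    exact ⟨g.2, g.1⟩
  · intro h k' K' _ _ _ _ _ _ hT
    have g := h k' K' hT
    exact ⟨g.2, g.1⟩

end proof

open Pool.Agent.Q269.SX Pool.Agent.Q269.GL Pool.Agent.Y164.HG in
/-- **Theorem.** -/
theorem result (k : Type) [Field k] [Finite k] (n : ℕ) (a : Fin n → k[X]) (N : ℕ) (h : Family a N) :
    (∃ (s : k[X] → ℕ) (j : k[X] → ℕ → ℕ → ℕ),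
      (∀ m : ℕ, Odd (m + N) → ∀ D ∈ Twists a m, Describes a D (s D) (j D)) ∧
      ∀ R : Finset (ℕ × ℕ), Inequivalent R → ∀ T : Set (ℕ × (R → ℕ)),
        Tendsto (proportion a fun D => (s D, fun p : R => j D p.1.1 p.1.2) ∈ T) (degrees N)
          (nhds (∑' x : T, law x.1.1 * ∏ p : R, newLaw p.1.1 (x.1.2 p)))) ∧
    (∀ T : Set ℕ, Orders T → (∀ r ∈ T, PrimeToDegrees (differences a) r) → 0 < productOver T ∧
      Tendsto (proportion a (GoodOverAll a T)) (degrees N) (nhds (law 0 * productOver T))) ∧
    (∃ c : ℝ, 0 < c ∧ ∀ᶠ m : ℕ in degrees N, c * (Nat.card k : ℝ) ^ m ≤ (((Twists a m).ncard : ℕ) : ℝ)) ∧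
    (HasSum law 1 ∧ 0.2097 < law 0 ∧ law 0 < 0.20975 ∧
      ∀ r : ℕ, Odd r → 1 < r → (∀ j, 0 < newLaw r j) ∧ HasSum (newLaw r) 1) ∧
    (Orders {m | ∃ i : ℕ, m = 3 ^ i} ∧ 0.1055 < law 0 * productOver {m | ∃ i : ℕ, m = 3 ^ i} ∧
      law 0 * productOver {m | ∃ i : ℕ, m = 3 ^ i} < 0.10565) ∧
    (∀ (ε : ℝ) (B : ℕ), 0 < ε → ∃ T : Set ℕ, Orders T ∧
      (∀ e : ℕ, Odd e → (∀ p : ℕ, p.Prime → p ∣ e → p ≤ B) → e ∈ T) ∧
      ∀ x : ℕ, (({e | 1 ≤ e ∧ e ≤ x ∧ Odd e ∧ e ∉ T} : Set ℕ).ncard : ℝ) ≤ ε * x) := by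
  let _ : Fintype k := Fintype.ofFinite k
  have H := geo h
  have e0 : 0.4194 < 2 * law 0 ∧ 2 * law 0 < 0.4195 := by
    have e1 : 2 * law 0 = ∏' i : ℕ, (1 - (1 / 2 : ℝ) ^ (2 * i + 1)) := by
      unfold law
      rw [Finset.prod_range_zero, pow_zero, div_one]
      ring
    rw [e1]
    exact Pool.Agent.Y948.CQ.t_C2.2.2.2
  refine ⟨⟨fun D => ex (geo h) D, fun D r u => jn a r u D, ?_, ?_⟩, ?_, ?_, ?_, ?_, ?_⟩
  · intro m hm D hD
    exact describes h hm (Pool.Agent.Q269.GJ.mem_tw.1 hD)
  · intro R hR T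
    have h1 := law_set1 Pool.Agent.Q269.SX.Asm.d_KDR Pool.Agent.Q269.SX.Asm.d_LWM Pool.Agent.Q269.SX.Asm.d_CLS
      Pool.Agent.Q269.SX.AsmG.c_ENL Pool.Agent.Q269.SX.Asm.d_ADX Pool.Agent.Q269.SX.AsmG.c_LWU
      Pool.Agent.Q269.SX.AsmG.c_LWN (geo h)
      (Pool.Agent.Q269.SX.AsmG.c_RPX.1 R hR.pair hR.ne) (fun p hp => ⟨(hR.pair p hp).1, (hR.pair p hp).2.1⟩) T
    rw [law_eq, newLaw_eq] at h1
    refine h1.congr fun m => ?_
    exact prop_eq _ _ _ m fun D _ => Iff.rfl
  · intro T hT hb
    have hto : Pool.Agent.Q269.SX.Tok a T := ⟨hT.one, hT.odd, hT.closed, hb, hT.large⟩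
    rw [product_eq hT.odd]
    refine ⟨(Pool.Agent.Q269.SX.AsmG.c_TPR T hto.adt).1, ?_⟩
    have h1 := law_inf1 Pool.Agent.Q269.SX.Asm.d_KDR Pool.Agent.Q269.SX.Asm.d_LWM Pool.Agent.Q269.SX.Asm.d_CLS
      Pool.Agent.Q269.SX.AsmG.c_INF Pool.Agent.Q269.SX.Asm.d_ADX (geo h) hto.adt
    rw [law_eq] at h1
    refine h1.congr' ?_
    filter_upwards [degs_odd N] with m hm
    refine prop_eq _ _ _ m fun D hD => ?_
    rw [over_iff]
    exact (Pool.Agent.Q269.SX.event_iff Pool.Agent.Q269.SX.Asm.d_SEL Pool.Agent.Q269.SX.Asm.d_BDX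
      Pool.Agent.Q269.SX.Asm.d_KDR Pool.Agent.Q269.SX.Asm.d_SLN Pool.Agent.Q269.SX.Asm.d_CRD
      Pool.Agent.Q269.GJ.Asm.b_HYM Pool.Agent.Q269.GR.Asm.a_FLD
      Pool.Agent.Q269.GR.Asm.a_XIR (geo h) hto hm hD).symm
  · obtain ⟨c, hc, h1⟩ := low1 (geo h)
    refine ⟨c, hc, ?_⟩
    filter_upwards [h1.filter_mono (degs_le N)] with m hm
    rw [ncard_tw' m] at hm
    rw [Nat.card_eq_fintype_card]
    exact hm
  · refine ⟨?_, by linarith [e0.1], by linarith [e0.2], fun r hr hr1 => ?_⟩
    · rw [← law_eq]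
      exact hasSum_law2
    · rw [← newLaw_eq]
      exact Pool.Agent.Q269.SX.Lu.lawR_pos Pool.Agent.Q269.SX.AsmG.c_LWU Pool.Agent.Q269.SX.AsmG.c_LWN hr hr1
  · obtain ⟨g1, g2, g3⟩ := Pool.Agent.Q269.SX.AsmG.c_NTH
    have hT : Orders {m | ∃ i : ℕ, m = 3 ^ i} := by
      refine ⟨⟨0, rfl⟩, g1.1, ?_, g1.2⟩
      rintro r ⟨i, rfl⟩ d hd
      obtain ⟨l, -, hl⟩ := (Nat.dvd_prime_pow Nat.prime_three).1 hd
      exact ⟨l, hl⟩
    refine ⟨hT, ?_⟩
    rw [product_eq hT.odd]
    have e2 : Q283.FS.lw 0 = 2 * law 0 := by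
      unfold law Q283.FS.lw
      rw [Finset.prod_range_zero, pow_zero, div_one]
      have e3 : Pool.Agent.Y697.PQ.cf (2 * 0) = 1 := rfl
      rw [e3]
      unfold Pool.Agent.Y703.CQ.c2
      ring
    rw [e2] at g2 g3
    have e4 : PT Pool.Agent.Q269.SX.Lu.T3 = PT {m | ∃ i : ℕ, m = 3 ^ i} := rfl
    rw [e4] at g2 g3
    constructor
    · linarith
    · linarith
  · intro ε B hε
    obtain ⟨R₁, h1⟩ := Pool.Agent.Q269.GJ.Asm.b_SMT B
    obtain ⟨R₀, h0⟩ := Pool.Agent.Q269.GJ.Asm.b_DNS ε hε
    set R := max R₀ R₁ with hR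
    refine ⟨{e | Odd e ∧ ∀ r : ℕ, r ∣ e → R < r → r ^ 8 ≤ 2 ^ orderOf (2 : ZMod r)}, ?_, ?_, ?_⟩
    · refine ⟨⟨odd_one, fun r hr hr1 => ?_⟩, fun r hr => hr.1, fun r hr d hd => ?_, R, fun r hr hr1 => ?_⟩
      · have := Nat.le_of_dvd one_pos hr
        have e : r = 1 := by omega
        rw [e, one_pow]
        exact Nat.one_le_two_pow
      · exact ⟨hr.1.of_dvd_nat hd, fun t ht => hr.2 t (ht.trans hd)⟩
      · exact hr.2 r dvd_rfl hr1
    · intro e he hp
      exact ⟨he, fun r hr hr1 => h1 e he hp r hr (lt_of_le_of_lt (le_max_right _ _) hr1)⟩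
    · intro x
      refine le_trans ?_ (h0 R (le_max_left _ _) x)
      rw [← Set.ncard_coe_finset]
      refine Nat.cast_le.2 (Set.ncard_le_ncard ?_ (Finset.finite_toSet _))
      rintro e ⟨h2, h3, h4, h5⟩
      rw [Finset.mem_coe, Finset.mem_filter, Finset.mem_Icc]
      refine ⟨⟨h2, h3⟩, h4, ?_⟩
      by_contra h6
      apply h5
      refine ⟨h4, fun r hr hr1 => ?_⟩
      by_contra h7
      exact h6 ⟨r, hr, hr1, not_le.1 h7⟩

end Pool.Agent.Results.MP_1d384c_nt.ExactLawJacobians
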