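import Pool.Agent.Q161.ESJ.All

/-!
# The ranks of hyperelliptic Jacobians: all twists and all `(ℤ/2)^m`-extensions of EVERY number field

Let `F` be any number field, `h` a monic polynomial of odd degree over `F`, irreducible over `F`, `J` the Jacobian of
`y² = h(x)` and `J_D` the one of `D y² = h(x)`, `D ∈ F^*`.  The only other hypothesis is that `h` has degree three, or
Galois group the full symmetric group, or that `J[2]` is a semisimple Galois module.  We prove:

* all exponential moments of the dimension of `J_D(F)/2J_D(F)`, so of the rank of `J_D(F)`, over ALL quadratic twists,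
  ordered by the norm of the product of the prime ideals at which the valuation of `D` is odd, are bounded;
* all exponential moments of the rank of `J(K)` over ALL Galois extensions `K` of `F` with group `(ℤ/2)^m`, ordered by the
  discriminant, are bounded; in particular the average of the rank of `J(K)` is bounded.  The number of the `K` of
  discriminant at most `X^(2^(m-1))` is of the order `X (log X)^(2^m - 2)`.

The proof (projects ESM, ESG, ESN, ESB, ESJ; `Pool/Agent/Q161`): the rank of `J(K)` is the sum of the ranks of `2^m` quadratic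
twists of `J`, and a given twist by `D` occurs for a number of the `K` which involves `(2^(m-1))^ω(D)`; the sums of
`M^ω(D) 2^(k R(D))` over all twists have the order of the sums of `M^ω(D)`: the 2-descent on the Jacobians over `F`, a system of
quadratic characters of ray classes of `F` and of fields containing `F` attached to the elements of a finite semisimple
Galois module; the primes dividing `D` are distributed over `M` blocks, and a sieve for the systems of `M` times as many
variables saves a power of the logarithm as long as more than `M` variables are free.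
Project of helper161 with helpers 14, 24, 26, 38, 63, 65, 68, 79, 92, 96, 121, 123, 124, 129, 147, 149, 150, 151, 153, 162,
164, 166, 176, 177, 182, 184, 190, 193, 195, 208, 210, 211, 214, 223, 224, 237, 238, 241, 261, 275, 285, 299.
-/

set_option autoImplicit false

namespace Pool.Agent.Results.MP_1d384c_nt.JacobiansOverNumberFields

open Finset NumberField Pool.Agent.Q161.ESJ

open Pool.Agent.Q161.ESN (Twists AllTwists t_family rankBounded)
open Pool.Agent.Q161.ESB (Elementary AllElementary number t_cnt t_fam t_kum t_iso t_dsc t_ext t_lowb t_dup)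

open scoped Classical

/-- the bounds for the values `R D` over the quadratic twists up to `X` -/
def TwistBounds {F : Type} [Field F] [NumberField F] (R : F → ℕ) (k : ℕ) (C : ℝ) : Prop :=
  ∀ X : ℝ, 1 ≤ X → ∀ 𝒟 : Finset F,
    (Twists X 𝒟 → (∑ D ∈ 𝒟, (2 : ℝ) ^ (k * R D) ≤ C * X) ∧
      (∑ D ∈ 𝒟, (R D : ℝ) ^ k ≤ C * X) ∧
      (∀ t : ℕ, ((𝒟.filter (fun D => t ≤ R D)).card : ℝ) ≤ C * X / 2 ^ (k * t)) ∧
      (𝒟.Nonempty → k * ∑ D ∈ 𝒟, (R D : ℝ) ≤ 𝒟.card * Real.logb 2 (C * X / 𝒟.card))) ∧
    (AllTwists X 𝒟 → (∑ D ∈ 𝒟, (2 : ℝ) ^ (k * R D) ≤ C * 𝒟.card) ∧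
      (∑ D ∈ 𝒟, (R D : ℝ) ^ k ≤ C * 𝒟.card) ∧
      ∀ t : ℕ, ((𝒟.filter (fun D => t ≤ R D)).card : ℝ) ≤ C * 𝒟.card / 2 ^ (k * t))

/-- the bounds for the values `R K` over the Galois extensions `K` of `F` with group `(ℤ/2)^m` -/
def ExtensionBounds (F : Type) [Field F] [NumberField F] (m : ℕ)
    (R : (K : Type) → [Field K] → [NumberField K] → [Algebra F K] → ℕ) (k : ℕ) (C : ℝ) : Prop :=
  ∀ (X : ℝ) (n : ℕ) (K : Fin n → Type) [∀ i, Field (K i)] [∀ i, NumberField (K i)]
    [∀ i, Algebra F (K i)], 1 ≤ X →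
    (Elementary F m X K →
      (∑ i, (2 : ℝ) ^ (k * R (K i)) ≤ C * X * (1 + Real.log X) ^ (2 ^ m - 2)) ∧
      (∑ i, (R (K i) : ℝ) ^ k ≤ C * X * (1 + Real.log X) ^ (2 ^ m - 2)) ∧
      (∀ t : ℕ, ((univ.filter (fun i => t ≤ R (K i))).card : ℝ) ≤
        C * X * (1 + Real.log X) ^ (2 ^ m - 2) / 2 ^ (k * t)) ∧
      (0 < n → k * ∑ i, (R (K i) : ℝ) ≤
        n * Real.logb 2 (C * X * (1 + Real.log X) ^ (2 ^ m - 2) / n))) ∧
    (AllElementary F m X K → (∑ i, (2 : ℝ) ^ (k * R (K i)) ≤ C * n) ∧
      (∑ i, (R (K i) : ℝ) ^ k ≤ C * n) ∧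
      ∀ t : ℕ, ((univ.filter (fun i => t ≤ R (K i))).card : ℝ) ≤ C * n / 2 ^ (k * t))

/-- the moments over all quadratic twists -/
theorem twists (F : Type) [Field F] [NumberField F] (r : ℕ) (H : Fin r → HP F)
    (h : ∀ i, Admissible (H i)) (k : ℕ) : ∃ C : ℝ, 0 < C ∧ TwistBounds (dimSum H) k C := by
  refine rankBounded _ k ?_
  obtain ⟨C, hC, h1⟩ := mom_dimSum t_desc H h 1 le_rfl k
  refine ⟨C, hC, fun X hX 𝒟 h𝒟 => ?_⟩
  have h2 := h1 X hX 𝒟 h𝒟
  simp only [Nat.cast_one, one_pow, one_mul, Nat.sub_self, pow_zero, mul_one] at h2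
  refine le_trans (le_of_eq (sum_congr rfl fun D _ => ?_)) h2
  rw [← pow_mul, mul_comm]

/-- (I) Let `F` be any number field, `h_1, …, h_r` admissible polynomials over `F`, `J_i` the Jacobian of `y² = h_i(x)` and
`J_(i,D)` the one of `D y² = h_i(x)`.  (1) For all `D ∈ F^*` the group `J_(i,D)(F)/2` is finite, its order is `2^(dimTwo)`, and
if `J_(i,D)(F)` is finitely generated (the Mordell-Weil theorem) its rank is at most `dimTwo`.  Let `R(D)` be the sum of
these dimensions.  (2) For every `k` there is a `C` such that for all `X ≥ 1` and every finite set `𝒟` of representatives of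
different twists up to `X` (`Twists X 𝒟`) the sums of `2^(k R(D))` and of `R(D)^k` over `𝒟` are at most `C X`, for all `t` at most
`C X / 2^(k t)` of the `D ∈ 𝒟` satisfy `R(D) ≥ t`, and `k ∑ R(D) ≤ |𝒟| log_2 (C X / |𝒟|)` if `𝒟` is not empty; if `𝒟` is complete
(`AllTwists X 𝒟`) the means of `2^(k R(D))` and of `R(D)^k` are at most `C` and the proportion of the `D` with `R(D) ≥ t` is at
most `C / 2^(k t)`.  (3) Let `m ≥ 1` and `r(K)` the sum of the ranks of the `J_i(K)` (`rankOverJ`).  For every `k` there is a `C`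
such that for all `X ≥ 1` and all families of `n` Galois extensions `K` of `F` with group `(ℤ/2)^m`, pairwise not isomorphic
over `F`, of discriminants at most `X^(2^(m-1))` (`Elementary F m X K`), with `L = X (1 + log X)^(2^m - 2)`: the sums of
`2^(k r(K))` and of `r(K)^k` are at most `C L`, for all `t` at most `C L / 2^(k t)` of the `K` satisfy `r(K) ≥ t`, and `k` times the
sum of `r(K)` is at most `n log_2 (C L / n)` if `n > 0`; if the family is complete (`AllElementary F m X K`), the means of
`2^(k r(K))` and of `r(K)^k` are at most `C` and the proportion of the `K` with `r(K) ≥ t` is at most `C / 2^(k t)`.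
(II) There are complete sets of representatives of the twists up to `X` and complete families of the extensions for all
`X ≥ 1`; they have between `X / C` and `C X` elements and at most `C L` members, at least `L / C` if `X ≥ C`.
(III) `x^5 - 4 x + 2` is admissible over `ℚ`. -/
theorem result :
    (∀ (F : Type) [Field F] [NumberField F] (r : ℕ) (H : Fin r → HP F), (∀ i, Admissible (H i)) →
      (∀ i, ∀ D : F, D ≠ 0 → Finite (QuotK ((H i).twist D) F 2) ∧
        Nat.card (QuotK ((H i).twist D) F 2) = 2 ^ dimTwo (H i) D ∧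
        (AddGroup.FG (JacK ((H i).twist D) F) →
          Module.finrank ℤ (JacK ((H i).twist D) F) ≤ dimTwo (H i) D)) ∧
      (∀ k : ℕ, ∃ C : ℝ, 0 < C ∧ TwistBounds (dimSum H) k C) ∧
      ∀ m : ℕ, 1 ≤ m → ∀ k : ℕ, ∃ C : ℝ, 0 < C ∧
        ExtensionBounds F m (fun K _ _ _ => rankOverJ H K) k C) ∧
    (∀ (F : Type) [Field F] [NumberField F],
      (∃ C : ℝ, 0 < C ∧ ∀ X : ℝ, 1 ≤ X → (∃ 𝒟 : Finset F, AllTwists X 𝒟) ∧
        ∀ 𝒟 : Finset F, AllTwists X 𝒟 → X / C ≤ 𝒟.card ∧ (𝒟.card : ℝ) ≤ C * X) ∧
      ∀ m : ℕ, 1 ≤ m → ∃ C : ℝ, 1 ≤ C ∧ ∀ X : ℝ, 1 ≤ X →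
        (∃ (n : ℕ) (K : Fin n → Type) (_ : ∀ i, Field (K i)) (_ : ∀ i, NumberField (K i))
          (_ : ∀ i, Algebra F (K i)), AllElementary F m X K) ∧
        ∀ (n : ℕ) (K : Fin n → Type) [∀ i, Field (K i)] [∀ i, NumberField (K i)]
          [∀ i, Algebra F (K i)], AllElementary F m X K →
          (C ≤ X → X * (1 + Real.log X) ^ (2 ^ m - 2) / C ≤ n) ∧
          (n : ℝ) ≤ C * X * (1 + Real.log X) ^ (2 ^ m - 2)) ∧
    Admissible quinticQ := by
  refine ⟨fun F _ _ r H h => ⟨fun i D hD => ?_, fun k => twists F r H h k, fun m hm k =>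
    extJ t_desc t_mqj t_fam t_kum t_iso t_dsc t_ext t_lowb t_dup F m hm r H h k⟩,
    fun F _ _ => ⟨t_family F, fun m hm =>
      number t_dsc t_cnt t_fam t_kum t_iso t_ext t_lowb t_dup F m hm⟩, quinticQ_adm⟩
  exact ⟨(grp_le t_desc (h i) hD).1, quot_rank t_desc (h i) hD⟩

end Pool.Agent.Results.MP_1d384c_nt.JacobiansOverNumberFields
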