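import Pool.Agent.Q282.FF.Tail4
import Pool.Agent.Q282.FF.Rank

/-!
# The order of vanishing and the rank for hyperelliptic Jacobians over `k(T)` with marked points

Let `k` be a finite field with `q` elements, of odd characteristic, and `r + m = 2 g + 1`, `r ≤ g`. We consider the curves
`y ^ 2 = f_t(x)` over `F = k(T)`, where `f_t = ∏ (x - a_i) h(x) + l(x) ^ 2` with `h` monic of degree `m` and `l` of degree less
than `r`, and the parameters `t`, namely the `a_i` and the coefficients of `h` and of `l`, are arbitrary polynomials in `T` of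
degree less than `n`. The Jacobian `J_t` has dimension `g`, and there are the `r` marked points `(a_i, l(a_i))`.
-/

set_option autoImplicit false

namespace Pool.Agent.Results.MP_1d384c_nt.OrdersOverFunctionFields

open Polynomial Finset
open Q282.FF (IsSpectrum order Par curve)
open Q282.JK (HasClassRank CoordRing)

/-- `L(J_t, s) = ∏ (1 - β i q ^ (1 - s))`, with at most `κ n` numbers `β i` of absolute value one, and its order of vanishing at
`s = 1` is at least `R`. -/
def OrderAtLeast (g κ : ℕ) {k : Type} [Field k] {r m n : ℕ} (t : Par k r m n) (R : ℕ) : Prop :=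
  ∃ (N : ℕ) (β : Fin N → ℂ), N ≤ κ * n ∧ IsSpectrum g (curve t) β ∧ R ≤ order β

/-- The group `J_t(k(T))` has rank at least `r`. -/
def RankAtLeast {k : Type} [Field k] {r m n : ℕ} (t : Par k r m n) (R : ℕ) : Prop :=
  HasClassRank (CoordRing ((curve t).map (algebraMap k[X] (RatFunc k)))) R

/-- **Main theorem.** (1) For almost all parameters the rank of the Jacobian is at least `r`. (2) There are constants `C`, `D` and a
function `M` such that for all finite fields `k` of odd characteristic and all `n ≥ 1`: the proportion of the parameters for which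
the order is at least `R` is at most `(C / R) ^ ⌊R / D⌋` for every `R ≥ 1`; and if the order is at least `ρ t` for all `t` in
the set `G` then the sum of `s ^ ρ t` over `G` is at most `M(s)` times the number of all parameters for all `s ≥ 0`, and the sum of
`ρ t` over `G` is at most `κ + r + 1 / 2 + C / n` times the number of all parameters, up to `C q ^ (n / 2)` times the number of the
parameters which are not in `G`. -/
theorem result (g r m κ : ℕ) (hrm : r + m = 2 * g + 1) (hrg : r ≤ g) (hg : 1 ≤ g) :
    (∀ ε : ℝ, 0 < ε → ∃ n₀ : ℕ, ∀ (k : Type) [Field k] [Finite k], (2 : k) ≠ 0 → ∀ n ≥ n₀,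
      (1 - ε) * Nat.card (Par k r m n) ≤ Nat.card {t : Par k r m n // RankAtLeast t r}) ∧
    ∃ (C D : ℕ) (M : ℝ → ℝ), 1 ≤ D ∧ ∀ (k : Type) [Field k] [Finite k], (2 : k) ≠ 0 → ∀ n : ℕ, 1 ≤ n →
      (∀ R : ℕ, 1 ≤ R → (Nat.card {t : Par k r m n // OrderAtLeast g κ t R} : ℝ) ≤ ((C : ℝ) / R) ^ (R / D) * Nat.card (Par k r m n)) ∧
      ∀ (G : Finset (Par k r m n)) (ρ : Par k r m n → ℕ), (∀ t ∈ G, OrderAtLeast g κ t (ρ t)) →
        (∀ s : ℝ, 0 ≤ s → ∑ t ∈ G, s ^ ρ t ≤ M s * Nat.card (Par k r m n)) ∧
        ∑ t ∈ G, (ρ t : ℝ) ≤ (κ + r + 1 / 2 + C / n) * Nat.card (Par k r m n) +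
          C * Real.sqrt (Nat.card k) ^ n * (Nat.card (Par k r m n) - G.card) := by
  classical
  refine ⟨?_, ?_⟩
  · intro ε hε
    obtain ⟨n₀, hn₀⟩ := Q282.FF.rank_FF g r m hrm hrg hg ε hε
    refine ⟨n₀, fun k _ _ h2 n hn => ?_⟩
    let _ : Fintype k := Fintype.ofFinite k
    have h1 := hn₀ k h2 n hn
    rw [Nat.card_eq_fintype_card, Nat.card_eq_fintype_card, Fintype.card_subtype]
    have h3 : Fintype.card (Par k r m n) ≤ (univ.filter fun t : Par k r m n => RankAtLeast t r).card +
        (univ.filter fun t : Par k r m n => ¬ Q282.FF.Ok t).card := by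
      rw [← card_univ]
      refine (card_le_card ?_).trans (card_union_le _ _)
      intro t _
      rw [mem_union, mem_filter, mem_filter]
      by_cases hOk : Q282.FF.Ok t
      · exact Or.inl ⟨mem_univ _, hOk.2⟩
      · exact Or.inr ⟨mem_univ _, hOk⟩
    have h4 : (Fintype.card (Par k r m n) : ℝ) ≤ (univ.filter fun t : Par k r m n => RankAtLeast t r).card +
        (univ.filter fun t : Par k r m n => ¬ Q282.FF.Ok t).card := by exact_mod_cast h3
    linarith
  · obtain ⟨C₁, D, -, hD, h1⟩ := Q282.FF.tail g r m κ hrm hrg hg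
    obtain ⟨C₂, h2⟩ := Q282.FF.mean g r m κ hrm hrg hg
    refine ⟨C₁ + C₂, D, Q282.FF.cst C₁ D, hD, ?_⟩
    intro k _ _ h2k n hn
    let _ : Fintype k := Fintype.ofFinite k
    have hn' : (0 : ℝ) < n := by exact_mod_cast hn
    have hcard : (Nat.card (Par k r m n) : ℝ) = Fintype.card (Par k r m n) := by rw [Nat.card_eq_fintype_card]
    have hC1 : (0 : ℝ) ≤ C₁ := Nat.cast_nonneg _
    have hC2 : (0 : ℝ) ≤ C₂ := Nat.cast_nonneg _
    refine ⟨?_, ?_⟩
    · intro R hR
      have h3 := h1 k h2k n R hR
      rw [hcard, Nat.card_eq_fintype_card, Fintype.card_subtype]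
      have hR' : (0 : ℝ) < R := by exact_mod_cast hR
      have h4 : ((C₁ : ℝ) / R) ^ (R / D) ≤ (((C₁ + C₂ : ℕ) : ℝ) / R) ^ (R / D) := by
        refine pow_le_pow_left₀ (by positivity) (div_le_div_of_nonneg_right ?_ hR'.le) _
        push_cast
        linarith
      refine le_trans (le_of_eq ?_) (h3.trans (mul_le_mul_of_nonneg_right h4 (Nat.cast_nonneg _)))
      rfl
    · intro G ρ hG
      refine ⟨?_, ?_⟩
      · intro s hs
        obtain ⟨ρ', hρ'⟩ : ∃ ρ' : Par k r m n → ℕ, ρ' = fun t => if t ∈ G then ρ t else 0 := ⟨_, rfl⟩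
        have h3 := Q282.FF.exp_moment (univ : Finset (Par k r m n)) ρ' C₁ hD (by
          intro R hR
          rw [card_univ]
          refine le_trans ?_ (h1 k h2k n R hR)
          refine Nat.cast_le.2 (card_le_card ?_)
          intro t ht
          rw [mem_filter] at ht ⊢
          refine ⟨mem_univ _, ?_⟩
          have h4 := ht.2
          rw [hρ'] at h4
          simp only at h4
          split_ifs at h4 with h5
          · obtain ⟨N, β, hN, hβ, hle⟩ := hG t h5
            exact ⟨N, β, hN, hβ, h4.trans hle⟩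
          · omega) hs
        rw [card_univ] at h3
        rw [hcard]
        refine le_trans ?_ h3
        have h4 : ∑ t ∈ G, s ^ ρ t = ∑ t ∈ G, s ^ ρ' t := by
          refine sum_congr rfl fun t ht => ?_
          rw [hρ']
          simp only [if_pos ht]
        rw [h4]
        exact sum_le_sum_of_subset_of_nonneg (subset_univ _) fun t _ _ => pow_nonneg hs _
      · have h3 := h2 k h2k n hn G ρ hG
        rw [hcard]
        have h4 : (((univ : Finset (Par k r m n)) \ G).card : ℝ) = Fintype.card (Par k r m n) - G.card := by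
          rw [← compl_eq_univ_sdiff, card_compl, Nat.cast_sub (card_le_univ G)]
        rw [h4] at h3
        have h5 : (0 : ℝ) ≤ Fintype.card (Par k r m n) - G.card := by
          rw [← h4]
          exact Nat.cast_nonneg _
        have h6 : ((κ : ℝ) + r + 1 / 2 + C₂ / n) * Fintype.card (Par k r m n) ≤
            ((κ : ℝ) + r + 1 / 2 + ((C₁ + C₂ : ℕ) : ℝ) / n) * Fintype.card (Par k r m n) := by
          refine mul_le_mul_of_nonneg_right ?_ (Nat.cast_nonneg _)
          have : (C₂ : ℝ) / n ≤ ((C₁ + C₂ : ℕ) : ℝ) / n := by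
            refine div_le_div_of_nonneg_right ?_ hn'.le
            push_cast
            linarith
          linarith
        have h7 : (C₂ : ℝ) * Real.sqrt (Nat.card k) ^ n * (Fintype.card (Par k r m n) - G.card) ≤
            ((C₁ + C₂ : ℕ) : ℝ) * Real.sqrt (Nat.card k) ^ n * (Fintype.card (Par k r m n) - G.card) := by
          refine mul_le_mul_of_nonneg_right (mul_le_mul_of_nonneg_right ?_ (by positivity)) h5
          push_cast
          linarith
        linarith

end Pool.Agent.Results.MP_1d384c_nt.OrdersOverFunctionFields
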