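import Pool.Agent.Q7.CF.All4
import Pool.Agent.Q7.CF.Short
import Pool.Agent.Q7.LK.Uni

/-!
# The ranks of the Jacobians of twisted Fermat curves and of their quotients over number fields containing the `p`-th roots of unity

Let `p` be an odd prime and `F` any number field which contains a primitive `p`-th root of unity. For `D ∈ F^*` let `X_D` be the
twisted Fermat curve `X^p + Y^p = D`, of genus `(p - 1) (p - 2)/2`, and for `1 ≤ r ≤ p - 2` let `C_(r, D)` be its quotient
`v^p = u (D - u)^r`, `u = X^p`, `v = X Y^r`, of genus `(p - 1)/2`; `J(X_D)` is isogenous to the product of the `J_(r, D)`. Prescribe `D`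
up to `p`-th powers in the completions at all places above the prime numbers `≤ y` (it is equal to `D₀` there), and the
orders `z_i ≠ 0` modulo `p` of `D` at `k` further primes `q_0, …, q_(k-1)`, of norms `≤ X_0, …, X_(k-1)` (the order is divisible
by `p` at all other primes), for large `k`, `X_0`, then `X_1` large in terms of `X_0`, and so on. Let
`α_n = ∏_i (1 - p^(-(2 i + 1))) / ∏_(1 ≤ i ≤ n) (p^i - 1)`, the limit of the probability that a symmetric matrix over `F_p` has
corank `n`, and `μ = ∑ n α_n` the mean of this law; `(p - 1) μ < 1`.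

Theorem. For the `D` of each of these families:
(1) for every `r` the rank of `J_(r, D)(F)` is at most `(p - 1) n` for at least the share `α_0 + … + α_n - ε`;
(2) for every `r` the mean of the rank of `J_(r, D)(F)` is at most `(p - 1) μ + ε < 1`;
(3) for at least the share `1 - (p - 1)/2 (1 - α_0) - ε > 1/2` the `p`-fold elements of `J(X_D)(F)` are `p²`-fold, so that it is
finite if it is finitely generated;
(4) the mean of the rank of `J(X_D)(F)` is at most `(p - 1) (p - 2) μ + ε < p - 2`.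

`J(X_D)(F)` enters as the class group of the coordinate ring `F[X, Y] / (X^p + Y^p - D)` of the affine curve, the quotient of
`J(X_D)(F)` by the group generated by the differences of the `p` points at infinity, which is finite (Rohrlich). `J_(r, D)(F)` is
the class group of the coordinate ring of `C_(r, D)`, which has one point at infinity.

Proof. See `FermatQuotientJacobians` (MP_dfae13_nt) for the groups of the classes in `F^*` modulo `p`-th powers which satisfy the
local conditions of `J_(r, D)`; their number is at most that of the kernel of a random symmetric matrix over `F_p` (the law of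
project EN of helper283). If it is `p^(n + 1)` then the rank is at most `(p - 1) n`. The product of the conjugates of an ideal of
`F[X, Y] / (X^p + Y^p - D)` under a subgroup of order `p` of the group of the automorphisms `X ↦ ζ^i X`, `Y ↦ ζ^j Y` comes from one
of the rings of the `C_(r, D)` or is principal, and these subgroups cover the group.

The parts were proved together with helpers 13, 14, 26, 38, 53, 65, 79, 94, 123, 124, 137, 150, 151, 153, 162, 164, 176, 182, 190,
198, 205, 211, 214, 222, 223, 224, 238, 259, 262, 265, 275, 277, 280, 283, 285 and 299.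
-/

set_option autoImplicit false

namespace Pool.Agent.Results.MP_1d384c_nt.RanksOfFermatJacobians

open NumberField IsDedekindDomain Filter Topology
open Pool.Agent.Q7.CF (CR FR Ok)

section Rank

open Classical in
/-- The rank of the class group of the integral domain `R` (`0` if it is not finitely generated). -/
noncomputable def classRank (R : Type) [CommRing R] : ℕ :=
  if h : IsDomain R then
    if Group.FG (@ClassGroup R _ h) then Module.finrank ℤ (Additive (@ClassGroup R _ h)) else 0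
  else 0

end Rank

/-- The limit of the probability that a symmetric matrix over the field with `p` elements has corank `n`:
`∏_(i ≥ 0) (1 - p ^ (-(2 i + 1))) / ∏_(i = 1)^n (p ^ i - 1)`. -/
noncomputable def alpha (p n : ℕ) : ℝ :=
  (∏' i : ℕ, (1 - (1 / (p : ℝ)) ^ (2 * i + 1))) / ∏ i ∈ Finset.range n, ((p : ℝ) ^ (i + 1) - 1)

/-- The mean `∑ n α_n` of this law. -/
noncomputable def mean (p : ℕ) : ℝ := ∑' n : ℕ, (n : ℝ) * alpha p n

section Ensemble

variable {F : Type} [Field F] [NumberField F]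

/-- The ring `F[X, Y] / (X^p + Y^p - D)` is a Dedekind domain, all `p`-fold elements of its class group are `p²`-fold, and the
class group is finite if it is finitely generated. -/
def RankZero (p : ℕ) (D : F) : Prop :=
  ∃ _ : IsDedekindDomain (FR p D),
    (∀ a : ClassGroup (FR p D), ∃ b : ClassGroup (FR p D), a ^ p = b ^ (p ^ 2)) ∧
    (Group.FG (ClassGroup (FR p D)) → Finite (ClassGroup (FR p D)))

/-- The class groups of the coordinate rings of the curves `v^p = u (D - u)^r`, `1 ≤ r ≤ p - 2`, are finitely generated (theorem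
of Mordell and Weil). -/
def MordellWeil (p : ℕ) (D : F) : Prop :=
  ∀ r, 1 ≤ r → r + 2 ≤ p → ∃ _ : IsDomain (CR p r D), Group.FG (ClassGroup (CR p r D))

/-- The order of `a` at `v` modulo `p`. -/
noncomputable def orderMod (p : ℕ) (v : HeightOneSpectrum (𝓞 F)) (a : F) : ZMod p :=
  -((WithZero.log (v.valuation F a) : ℤ) : ZMod p)

/-- `a` is the `p`-th power of a nonzero element of the completion of `F` at `v`. -/
def PowerAt (p : ℕ) (v : HeightOneSpectrum (𝓞 F)) (a : F) : Prop :=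
  a ≠ 0 ∧ ∃ s : v.adicCompletion F, (a : v.adicCompletion F) = s ^ p

/-- `v` lies above a prime number `l ≤ y`. -/
def Small (y : ℕ) (v : HeightOneSpectrum (𝓞 F)) : Prop :=
  ∃ l : ℕ, l.Prime ∧ l ≤ y ∧ (l : 𝓞 F) ∈ v.asIdeal

open Classical in
/-- Among the primes not above prime numbers `≤ y` the order of `D` modulo `p` is `z i` at the prime `q i` and `0` at the
others; and at the primes above prime numbers `≤ y` the number `D` is equal to `D₀` up to local `p`-th powers. -/
structure Fits (p y : ℕ) (D₀ : F) {k : ℕ} (z : Fin k → ZMod p) (q : Fin k → HeightOneSpectrum (𝓞 F)) (D : F) :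
    Prop where
  ne : D ≠ 0
  ram : ∀ v : HeightOneSpectrum (𝓞 F), ¬ Small y v → orderMod p v D = ∑ i, if q i = v then z i else 0
  loc : ∀ v : HeightOneSpectrum (𝓞 F), Small y v → PowerAt p v (D / D₀)

/-- The ensemble: the tuples of `k` different primes `q i`, not above prime numbers `≤ y`, of norm `≤ X i`, to which a
`D` belongs. -/
def Ensemble (p y : ℕ) (D₀ : F) {k : ℕ} (z : Fin k → ZMod p) (X : Fin k → ℕ) : Set (Fin k → HeightOneSpectrum (𝓞 F)) :=
  {q | (Function.Injective q ∧ ∀ i, ¬ Small y (q i) ∧ Ideal.absNorm (q i).asIdeal ≤ X i) ∧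
    ∃ D, Fits p y D₀ z q D}

/-- For `1 ≤ r ≤ p - 2` and `n ≤ R` the rank of the Jacobian of `v^p = u (D - u)^r` is at most `(p - 1) n` for at least the share
`α_0 + … + α_n - ε` of the ensemble. -/
def RankLaw (p y : ℕ) (D₀ : F) {k : ℕ} (z : Fin k → ZMod p) (X : Fin k → ℕ) (R : ℕ) (ε : ℝ) : Prop :=
  ∀ r, 1 ≤ r → r + 2 ≤ p → ∀ n ≤ R, (∑ i ∈ Finset.range (n + 1), alpha p i - ε) * (Ensemble p y D₀ z X).ncard ≤
    ({q ∈ Ensemble p y D₀ z X | ∀ D, Fits p y D₀ z q D → classRank (CR p r D) ≤ (p - 1) * n}.ncard : ℝ)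

/-- For `1 ≤ r ≤ p - 2` the mean of the rank of the Jacobian of `v^p = u (D - u)^r`, `D = f q`, over the ensemble is at most
`c`. -/
def MeanRank (p y : ℕ) (D₀ : F) {k : ℕ} (z : Fin k → ZMod p) (X : Fin k → ℕ) (c : ℝ) : Prop :=
  ∀ r, 1 ≤ r → r + 2 ≤ p → ∀ f : (Fin k → HeightOneSpectrum (𝓞 F)) → F,
    (∀ q ∈ Ensemble p y D₀ z X, Fits p y D₀ z q (f q)) →
    ∑ᶠ q ∈ Ensemble p y D₀ z X, (classRank (CR p r (f q)) : ℝ) ≤ c * (Ensemble p y D₀ z X).ncard

/-- For at least the share `c` of the ensemble `RankZero` is true. -/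
def FermatShare (p y : ℕ) (D₀ : F) {k : ℕ} (z : Fin k → ZMod p) (X : Fin k → ℕ) (c : ℝ) : Prop :=
  c * (Ensemble p y D₀ z X).ncard ≤
    ({q ∈ Ensemble p y D₀ z X | ∀ D, Fits p y D₀ z q D → RankZero p D}.ncard : ℝ)

/-- The mean of the rank of the class group of `F[X, Y] / (X^p + Y^p - D)`, `D = f q`, over the ensemble is at most `c`. -/
def FermatMean (p y : ℕ) (D₀ : F) {k : ℕ} (z : Fin k → ZMod p) (X : Fin k → ℕ) (c : ℝ) : Prop :=
  ∀ f : (Fin k → HeightOneSpectrum (𝓞 F)) → F, (∀ q ∈ Ensemble p y D₀ z X, Fits p y D₀ z q (f q) ∧ MordellWeil p (f q)) →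
    ∑ᶠ q ∈ Ensemble p y D₀ z X, (classRank (FR p (f q)) : ℝ) ≤ c * (Ensemble p y D₀ z X).ncard

end Ensemble

/-- `P X` is true for all large `X 0`, for all `X 1` which are large in terms of `X 0`, …, for all `X (k-1)` which are
large in terms of the others. -/
def Nested : (k : ℕ) → ((Fin k → ℕ) → Prop) → Prop
  | 0, P => P Fin.elim0
  | k + 1, P => Nested k fun X => ∀ᶠ x : ℕ in atTop, P (Fin.snoc (α := fun _ => ℕ) X x)

section Proof

theorem nested_iff : ∀ (k : ℕ) (P : (Fin k → ℕ) → Prop), Nested k P ↔ Q283.LQ.Nest k P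
  | 0, _ => Iff.rfl
  | k + 1, _ => nested_iff k _

variable {F : Type} [Field F] [NumberField F]

theorem fits_iff {p y : ℕ} [Fact p.Prime] {D₀ : F} {k : ℕ} {z : Fin k → ZMod p}
    {q : Fin k → HeightOneSpectrum (𝓞 F)} {D : F} : Fits p y D₀ z q D ↔ Q7.LK.Fits p y D₀ z q D := by
  constructor
  · intro h
    exact ⟨h.ne, h.ram, fun v hv => (Q7.LK.t_CPL p F v _).mpr (h.loc v hv)⟩
  · intro h
    exact ⟨h.ne, h.ram, fun v hv => (Q7.LK.t_CPL p F v _).mp (h.loc v hv)⟩

theorem ens_eq {p y : ℕ} [Fact p.Prime] {D₀ : F} {k : ℕ} {z : Fin k → ZMod p} {X : Fin k → ℕ} :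
    Ensemble p y D₀ z X = Q7.CF.Ens p y D₀ z X := by
  ext q
  simp only [Ensemble, Q7.CF.Ens, Q283.LQ.Box, Set.mem_ofPred_eq, fits_iff]
  rfl

theorem classRank_of (R : Type) [CommRing R] (h : IsDomain R) (hf : Group.FG (ClassGroup R)) :
    classRank R = Module.finrank ℤ (Additive (ClassGroup R)) := by
  unfold classRank
  rw [dif_pos h, if_pos hf]

theorem classRank_not (R : Type) [CommRing R] (h : IsDomain R) (hf : ¬ Group.FG (ClassGroup R)) :
    classRank R = 0 := by
  unfold classRank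
  rw [dif_pos h, if_neg hf]

theorem alpha_eq : Q283.EN.al = alpha := rfl

theorem mean_eq : Q7.CF.rho = mean := rfl

end Proof

/-- **Main result.** -/
theorem result (p : ℕ) [Fact p.Prime] (hp : p ≠ 2) (F : Type) [Field F] [NumberField F] (ζ : F)
    (hζ : IsPrimitiveRoot ζ p) :
    (((p : ℝ) - 1) / 2 * (1 - alpha p 0) < 1 / 2 ∧ ((p : ℝ) - 1) * mean p < 1) ∧
    ∃ y₀ : ℕ, ∀ y, y₀ ≤ y → ∀ D₀ : F, D₀ ≠ 0 →
      (∀ (k : ℕ) (z : Fin k → ZMod p) (q : Fin k → HeightOneSpectrum (𝓞 F)) (D D' : F),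
        Fits p y D₀ z q D → Fits p y D₀ z q D' → ∃ x : F, D = D' * x ^ p) ∧
      ∀ (R : ℕ) (ε : ℝ), 0 < ε → ∃ k₀ : ℕ, ∀ k, k₀ ≤ k → ∀ z : Fin k → ZMod p, (∀ i, z i ≠ 0) → Nested k fun X =>
        (Ensemble p y D₀ z X).Finite ∧ (Ensemble p y D₀ z X).Nonempty ∧
        RankLaw p y D₀ z X R ε ∧ MeanRank p y D₀ z X (((p : ℝ) - 1) * mean p + ε) ∧
        FermatShare p y D₀ z X (1 - ((p : ℝ) - 1) / 2 * (1 - alpha p 0) - ε) ∧
        FermatMean p y D₀ z X (((p : ℝ) - 1) * ((p : ℝ) - 2) * mean p + ε) := by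
  have hp1 : (0 : ℝ) < (p : ℝ) - 1 := by
    have : (1 : ℝ) < p := by exact_mod_cast (Fact.out : p.Prime).one_lt
    linarith
  obtain ⟨hc1, hc2, hc3⟩ := Q7.CF.t_LW8 p hp
  rw [alpha_eq] at hc1
  rw [mean_eq] at hc2 hc3
  refine ⟨⟨lt_of_le_of_lt hc1 ?_, lt_of_le_of_lt hc3 ?_⟩, ?_⟩
  · rw [div_lt_div_iff₀ (by positivity) (by norm_num)]
    linarith
  · have hp0 : (0 : ℝ) < p := by linarith
    have : (0 : ℝ) < 1 / (2 * (p : ℝ)) := by positivity
    linarith
  obtain ⟨y1, hy1⟩ := Q7.CF.t_MAIN3 p hp F ζ hζ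
  obtain ⟨y2, hy2⟩ := Q7.LK.uniq Q7.LK.t_BAS Q7.LK.t_BASE p hp F ζ hζ
  obtain ⟨y3, hy3⟩ := Q7.CF.t_MAIN4 p hp F ζ hζ
  refine ⟨max y1 (max y2 y3), fun y hy D₀ hD₀ => ⟨fun k z q D D' hD hD' => ?_, fun R ε hε => ?_⟩⟩
  · obtain ⟨x, hx⟩ := hy2 y (le_trans ((le_max_left _ _).trans (le_max_right _ _)) hy) D₀ hD₀ k z q D D'
      (fits_iff.mp hD) (fits_iff.mp hD')
    refine ⟨x, ?_⟩
    rw [← hx, mul_div_cancel₀ _ hD'.ne]
  obtain ⟨k1, hk1⟩ := hy1 y (le_trans (le_max_left _ _) hy) D₀ hD₀ ε hε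
  obtain ⟨k3, hk3⟩ := hy3 y (le_trans ((le_max_right _ _).trans (le_max_right _ _)) hy) D₀ hD₀ R ε hε
  refine ⟨max k1 k3, fun k hk z hz => (nested_iff k _).mpr (Q7.LK.nest_mono k _ _ (fun X hX => ?_)
    (Pool.Agent.Q275.CF.UNI.nest_and k _ _ (hk1 k ((le_max_left _ _).trans hk) z hz)
      (hk3 k ((le_max_right _ _).trans hk) z hz)))⟩
  obtain ⟨⟨hfin, hpos, -, h3⟩, ⟨-, -, h1, h2, h4⟩⟩ := hX
  rw [← ens_eq] at hpos h1 h2 h3 h4
  rw [alpha_eq] at h1 h3
  rw [mean_eq] at h2 h4
  have hEfin : (Ensemble p y D₀ z X).Finite := by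
    rw [ens_eq]
    exact hfin.subset (fun q hq => hq.1)
  have hdom : ∀ D : F, D ≠ 0 → ∀ r, Ok p r → IsDomain (CR p r D) := fun D hD r hr =>
    (Q7.CF.t_DED p r F D hD).1.toIsDomain
  have hsum : ∀ g : (Fin k → HeightOneSpectrum (𝓞 F)) → ℝ,
      ∑ᶠ q ∈ Ensemble p y D₀ z X, g q = ∑ q ∈ hEfin.toFinset, g q := by
    intro g
    rw [← finsum_mem_coe_finset, Set.Finite.coe_toFinset]
  refine ⟨hEfin, ?_, fun r hr1 hr2 n hn => ?_, fun r hr1 hr2 f hf => ?_, ?_, fun f hf => ?_⟩
  · rw [← Set.ncard_pos hEfin]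
    exact_mod_cast hpos
  · have hr : Ok p r := ⟨hr1, hr2⟩
    refine le_trans (h1 r hr n hn) (Nat.cast_le.2 (Set.ncard_le_ncard ?_ (hEfin.subset (fun q hq => hq.1))))
    rintro q ⟨hq, h⟩
    refine ⟨hq, fun D hfit => ?_⟩
    by_cases hfg : Group.FG (@ClassGroup (CR p r D) _ (hdom D hfit.ne r hr))
    · rw [classRank_of _ (hdom D hfit.ne r hr) hfg]
      exact h D (fits_iff.mp hfit) _ ⟨hdom D hfit.ne r hr, hfg, rfl⟩
    · rw [classRank_not _ (hdom D hfit.ne r hr) hfg]
      exact Nat.zero_le _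
  · have hr : Ok p r := ⟨hr1, hr2⟩
    classical
    rw [hsum]
    have hdq : ∀ q ∈ Ensemble p y D₀ z X, IsDomain (CR p r (f q)) := fun q hq => hdom _ (hf q hq).ne r hr
    set B := hEfin.toFinset.filter fun q => ∃ h : IsDomain (CR p r (f q)), Group.FG (ClassGroup (CR p r (f q))) with hB
    have h5 : ∑ q ∈ hEfin.toFinset, (classRank (CR p r (f q)) : ℝ) = ∑ q ∈ B, (classRank (CR p r (f q)) : ℝ) := by
      rw [hB, Finset.sum_filter]
      refine Finset.sum_congr rfl fun q hq => ?_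
      by_cases h : ∃ h : IsDomain (CR p r (f q)), Group.FG (ClassGroup (CR p r (f q)))
      · rw [if_pos h]
      · rw [if_neg h]
        have hq' : q ∈ Ensemble p y D₀ z X := (Set.Finite.mem_toFinset hEfin).1 hq
        rw [classRank_not _ (hdq q hq') (fun h' => h ⟨hdq q hq', h'⟩), Nat.cast_zero]
    rw [h5]
    refine h2 r hr B (fun q => classRank (CR p r (f q))) (fun q hq => ?_) fun q hq => ?_
    · exact (Set.Finite.mem_toFinset hEfin).1 (Finset.mem_filter.1 hq).1
    · obtain ⟨hq1, hd, hfg⟩ := Finset.mem_filter.1 hq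
      have hq' : q ∈ Ensemble p y D₀ z X := (Set.Finite.mem_toFinset hEfin).1 hq1
      exact ⟨f q, fits_iff.mp (hf q hq'), hd, hfg, (classRank_of _ hd hfg).symm⟩
  · refine le_trans h3 (Nat.cast_le.2 (Set.ncard_le_ncard ?_ (hEfin.subset (fun q hq => hq.1))))
    rintro q ⟨hq, h⟩
    refine ⟨hq, fun D hfit => ?_⟩
    obtain ⟨hd, h6⟩ := Q7.CF.t_FIN p hp F D hfit.ne
    exact ⟨hd, h6 (h D (fits_iff.mp hfit)).1⟩
  · classical
    rw [hsum]
    have hok1 : Ok p 1 := ⟨le_rfl, by
      have h2 := (Fact.out : p.Prime).two_le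
      omega⟩
    have hdq : ∀ q ∈ Ensemble p y D₀ z X, IsDomain (FR p (f q)) := fun q hq =>
      (Q7.CF.t_DED p 1 F (f q) (hf q hq).1.ne).2.2.1.toIsDomain
    set B := hEfin.toFinset.filter fun q => ∃ h : IsDomain (FR p (f q)), Group.FG (ClassGroup (FR p (f q))) with hB
    have h5 : ∑ q ∈ hEfin.toFinset, (classRank (FR p (f q)) : ℝ) = ∑ q ∈ B, (classRank (FR p (f q)) : ℝ) := by
      rw [hB, Finset.sum_filter]
      refine Finset.sum_congr rfl fun q hq => ?_
      by_cases h : ∃ h : IsDomain (FR p (f q)), Group.FG (ClassGroup (FR p (f q)))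
      · rw [if_pos h]
      · rw [if_neg h]
        have hq' : q ∈ Ensemble p y D₀ z X := (Set.Finite.mem_toFinset hEfin).1 hq
        rw [classRank_not _ (hdq q hq') (fun h' => h ⟨hdq q hq', h'⟩), Nat.cast_zero]
    rw [h5]
    refine h4 B (fun q => classRank (FR p (f q))) (fun q hq => ?_) fun q hq => ?_
    · exact (Set.Finite.mem_toFinset hEfin).1 (Finset.mem_filter.1 hq).1
    · obtain ⟨hq1, hd, hfg⟩ := Finset.mem_filter.1 hq
      have hq' : q ∈ Ensemble p y D₀ z X := (Set.Finite.mem_toFinset hEfin).1 hq1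
      refine ⟨f q, fits_iff.mp (hf q hq').1, ⟨hd, hfg, (classRank_of _ hd hfg).symm⟩, fun r hr => ?_⟩
      obtain ⟨hd', hfg'⟩ := (hf q hq').2 r hr.h1 hr.h2
      exact ⟨_, hd', hfg', rfl⟩

end Pool.Agent.Results.MP_1d384c_nt.RanksOfFermatJacobians
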